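import Pool.Agent.Y314.CT.Stm

set_option autoImplicit false

/-!
# CT-ASD: finite asymptotic dimension
-/

namespace Pool.Agent.Y314.CT

theorem t_ASD : S_RD → S_CNT → S_CMP → S_ASD := by
  intro hRD hCNT hCMP t
  obtain ⟨rd, hrd, -⟩ := hRD t
  obtain ⟨c, hc⟩ := hCNT t
  obtain ⟨-, C, hC, hd⟩ := hCMP t
  refine ⟨c * (2 + 1) ^ 12, fun R => ?_⟩
  set ρ : ℝ := 2 * R + 1 with hρ
  have hρ0 : 0 < ρ := by positivity
  have hinv : (0 : ℝ) ≤ 1 / ρ := by positivity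
  refine ⟨Pt, fun i => {p | rd (dil (1 / ρ) (io t p)) = i}, ⌈C * ρ + C⌉₊, ?_, ?_, ?_⟩
  · intro i x hx y hy
    have hx' : rd (dil (1 / ρ) (io t x)) = i := hx
    have hy' : rd (dil (1 / ρ) (io t y)) = i := hy
    have h1 := hrd (dil (1 / ρ) (io t x))
    have h2 := hrd (dil (1 / ρ) (io t y))
    rw [hx', dd_comm] at h1
    rw [hy'] at h2
    have h3 := dd_triangle (dil (1 / ρ) (io t x)) (io t i) (dil (1 / ρ) (io t y))
    rw [dd_dil hinv] at h3
    have h4 : dd (io t x) (io t y) ≤ ρ := by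
      have h5 : 1 / ρ * dd (io t x) (io t y) ≤ 1 := by linarith
      rw [one_div, inv_mul_le_iff₀ hρ0] at h5
      linarith
    have h6 : ((XG t).dist x y : ℝ) ≤ C * ρ + C := by
      have h7 := (hd x y).2
      have h8 : C * dd (io t x) (io t y) ≤ C * ρ := mul_le_mul_of_nonneg_left h4 hC.le
      linarith
    have h9 : ((XG t).dist x y : ℝ) ≤ (⌈C * ρ + C⌉₊ : ℝ) := h6.trans (Nat.le_ceil _)
    exact_mod_cast h9
  · intro x
    exact ⟨rd (dil (1 / ρ) (io t x)), rfl⟩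
  · intro x
    obtain ⟨hfin, hcard⟩ := hc (dil (1 / ρ) (io t x)) 2
    have hsub : {i | ∃ y ∈ {p | rd (dil (1 / ρ) (io t p)) = i}, (XG t).dist x y ≤ R} ⊆
        {q : Pt | dd (dil (1 / ρ) (io t x)) (io t q) ≤ ((2 : ℕ) : ℝ)} := by
      rintro i ⟨y, hy, hxy⟩
      have hy' : rd (dil (1 / ρ) (io t y)) = i := hy
      have h1 := hrd (dil (1 / ρ) (io t y))
      rw [hy', dd_comm] at h1
      have h2 := (hd x y).1
      have h3 : ((XG t).dist x y : ℝ) ≤ R := by exact_mod_cast hxy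
      have h4 : dd (dil (1 / ρ) (io t x)) (dil (1 / ρ) (io t y)) ≤ 1 := by
        rw [dd_dil hinv, one_div, inv_mul_le_iff₀ hρ0]
        linarith
      have h5 := dd_triangle (dil (1 / ρ) (io t x)) (dil (1 / ρ) (io t y)) (io t i)
      show dd (dil (1 / ρ) (io t x)) (io t i) ≤ ((2 : ℕ) : ℝ)
      push_cast
      linarith
    exact ⟨hfin.subset hsub, (Set.ncard_le_ncard hsub hfin).trans (hcard.trans (Nat.le_succ _))⟩

end Pool.Agent.Y314.CT
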