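import Pool.Agent.Y314.CT.Stm

set_option autoImplicit false

/-!
# CT-CMP: graph metric versus `dd`
-/

namespace Pool.Agent.Y314.CT

theorem walk_bound {t : ℝ} {p q : Pt} (w : (XG t).Walk p q) :
    dd (io t p) (io t q) ≤ 2 * (w.length : ℝ) := by
  induction w with
  | nil => simp
  | @cons a b c h w ih =>
    have h1 := dd_triangle (io t a) (io t b) (io t c)
    have h2 : dd (io t a) (io t b) ≤ 2 := h.2
    rw [SimpleGraph.Walk.length_cons]
    push_cast
    linarith

theorem chain_walk {t : ℝ} (r : ℕ → Pt) (n : ℕ)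
    (h : ∀ i, i < n → dd (io t (r i)) (io t (r (i + 1))) ≤ 2) :
    ∃ w : (XG t).Walk (r 0) (r n), w.length ≤ n := by
  induction n with
  | zero => exact ⟨SimpleGraph.Walk.nil, le_rfl⟩
  | succ n ih =>
    obtain ⟨w, hw⟩ := ih (fun i hi => h i (Nat.lt_succ_of_lt hi))
    by_cases hne : r n = r (n + 1)
    · rw [← hne]
      exact ⟨w, hw.trans (Nat.le_succ _)⟩
    · have hadj : (XG t).Adj (r n) (r (n + 1)) := ⟨hne, h n (Nat.lt_succ_self n)⟩
      refine ⟨w.append (SimpleGraph.Walk.cons hadj SimpleGraph.Walk.nil), ?_⟩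
      rw [SimpleGraph.Walk.length_append]
      simpa using hw

theorem t_CMP : S_GEN → S_RD → S_CMP := by
  intro hG hRD t
  obtain ⟨C, hC, hg⟩ := hG t
  obtain ⟨rd, hrd, hrd2⟩ := hRD t
  have key : ∀ p q : Pt, ∃ w : (XG t).Walk p q,
      (w.length : ℝ) ≤ C * (dd (io t p) (io t q) + 1) := by
    intro p q
    obtain ⟨n, x, hn, h0, h1, hx⟩ := hg ((io t p)⁻¹ * io t q)
    have hr0 : rd (io t p * x 0) = p := by rw [h0, mul_one, hrd2]
    have hrn : rd (io t p * x n) = q := by rw [h1, mul_inv_cancel_left, hrd2]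
    obtain ⟨w, hw⟩ := chain_walk (t := t) (fun i => rd (io t p * x i)) n (by
      intro i hi
      have e1 := hrd (io t p * x i)
      have e2 := hrd (io t p * x (i + 1))
      have e3 : dd (io t p * x i) (io t p * x (i + 1)) ≤ 1 := by
        rw [dd_mul_left]; exact hx i hi
      have e4 := dd_triangle (io t (rd (io t p * x i))) (io t p * x i)
        (io t (rd (io t p * x (i + 1))))
      have e5 := dd_triangle (io t p * x i) (io t p * x (i + 1))
        (io t (rd (io t p * x (i + 1))))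
      rw [dd_comm] at e2
      linarith)
    have hw' : (w.length : ℝ) ≤ C * (dd (io t p) (io t q) + 1) := by
      have h2 : (w.length : ℝ) ≤ n := by exact_mod_cast hw
      exact h2.trans hn
    refine ⟨w.copy hr0 hrn, ?_⟩
    rw [SimpleGraph.Walk.length_copy]
    exact hw'
  have hconn : (XG t).Connected := by
    refine ⟨fun p q => ?_⟩
    obtain ⟨w, -⟩ := key p q
    exact ⟨w⟩
  refine ⟨hconn, C, hC, fun p q => ⟨?_, ?_⟩⟩
  · obtain ⟨w, hw⟩ := hconn.exists_walk_length_eq_dist p q
    rw [← hw]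
    exact walk_bound w
  · obtain ⟨w, hw⟩ := key p q
    have h1 : ((XG t).dist p q : ℝ) ≤ w.length := by exact_mod_cast SimpleGraph.dist_le w
    linarith

end Pool.Agent.Y314.CT
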