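import Pool.Agent.Y314.CT.Stm

set_option autoImplicit false

/-!
# CT-GEN: chains of unit steps
-/

namespace Pool.Agent.Y314.CT

/-- `g` can be reached from `1` in `n` unit steps. -/
def Rch {t : ℝ} (n : ℕ) (g : NT t) : Prop :=
  ∃ p : ℕ → NT t, p 0 = 1 ∧ p n = g ∧ ∀ i, i < n → dd (p i) (p (i + 1)) ≤ 1

theorem Rch.mul {t : ℝ} {n m : ℕ} {g h : NT t} (hg : Rch n g) (hh : Rch m h) :
    Rch (n + m) (g * h) := by
  obtain ⟨p, p0, pn, hp⟩ := hg
  obtain ⟨q, q0, qm, hq⟩ := hh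
  refine ⟨fun i => if i ≤ n then p i else g * q (i - n), ?_, ?_, ?_⟩
  · simp [p0]
  · by_cases hm : m = 0
    · subst hm
      simp [pn, ← qm, q0]
    · have : ¬ (n + m ≤ n) := by omega
      simp only [this, if_false]
      rw [Nat.add_sub_cancel_left, qm]
  · intro i hi
    by_cases h1 : i + 1 ≤ n
    · have h2 : i ≤ n := by omega
      simp only [h1, h2, if_true]
      exact hp i (by omega)
    · by_cases h2 : i ≤ n
      · have h3 : i = n := by omega
        subst h3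
        simp only [h1, le_refl, if_true, if_false]
        have h4 : i + 1 - i = 1 := by omega
        rw [h4, pn]
        have h5 := hq 0 (by omega)
        rw [q0] at h5
        have h6 : dd (g * 1) (g * q 1) ≤ 1 := by rw [dd_mul_left]; simpa using h5
        simpa using h6
      · simp only [h1, h2, if_false]
        rw [dd_mul_left]
        have h4 : i + 1 - n = (i - n) + 1 := by omega
        rw [h4]
        exact hq _ (by omega)

theorem rch_hor {t : ℝ} (n : ℕ) (v : HV) (hv : ‖v‖ ≤ n) : Rch n (⟨v, 0⟩ : NT t) := by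
  rcases Nat.eq_zero_or_pos n with h0 | h0
  · subst h0
    have hv0 : v = 0 := by
      have : ‖v‖ ≤ 0 := by simpa using hv
      exact norm_le_zero_iff.1 this
    subst hv0
    exact ⟨fun _ => 1, rfl, rfl, fun i hi => absurd hi (by omega)⟩
  · have hn : (0 : ℝ) < n := by exact_mod_cast h0
    refine ⟨fun i => ⟨((i : ℝ) / n) • v, 0⟩, ?_, ?_, ?_⟩
    · refine ext' ?_ ?_ <;> simp
    · refine ext' ?_ ?_
      · simp [div_self hn.ne']
      · simp
    · intro i _
      unfold dd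
      refine nn_le zero_le_one ?_ ?_
      · rw [inv_mul_v]
        show ‖(((i + 1 : ℕ) : ℝ) / n) • v - ((i : ℝ) / n) • v‖ ≤ 1
        rw [← sub_smul, norm_smul]
        have h1 : ((i + 1 : ℕ) : ℝ) / n - (i : ℝ) / n = 1 / n := by
          push_cast; field_simp; ring
        rw [h1, Real.norm_of_nonneg (by positivity), one_div, inv_mul_le_iff₀ hn]
        linarith
      · rw [inv_mul_z]
        show ‖(0 : ZV) - 0 - (1 / 2 : ℝ) • om t (((i : ℝ) / n) • v) ((((i + 1 : ℕ) : ℝ) / n) • v)‖ ≤ _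
        rw [om_smul_left, om_smul_right, om_self]
        simp only [smul_zero, sub_zero, norm_zero]
        have := bt_pos t
        positivity

theorem norm_smul_ev (r : ℝ) (i : Fin 4) (b : Bool) : ‖r • ev i b‖ = |r| := by
  rw [norm_smul, norm_ev, Real.norm_eq_abs, mul_one]

theorem rch_ge {t : ℝ} (n : ℕ) (i : Fin 4) (b : Bool) (a : ℝ) (ha : |a| ≤ n) :
    Rch n (ge t i b a) := by
  refine rch_hor n (a • ev i b) ?_
  rw [norm_smul_ev]
  exact ha

theorem comm_eq {t : ℝ} (i : Fin 4) (a b : ℝ) :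
    ge t i true a * ge t i false b * ge t i true (-a) * ge t i false (-b) =
      (⟨0, (a * b) • cc t i⟩ : NT t) := by
  have h1 := om_ev_same (t := t) i
  have h2 : om t (ev i false) (ev i true) = - cc t i := by
    rw [om_swap, h1]
  refine ext' ?_ ?_
  · simp only [mul_v, ge_v, neg_smul]
    abel
  · simp only [mul_z, mul_v, ge_v, ge_z, om_add_left, om_add_right, om_smul_left, om_smul_right,
      om_self, h1, h2, neg_smul, om_neg_left, om_neg_right, smul_neg, smul_zero, smul_add,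
      smul_smul, neg_neg, neg_zero, add_zero, zero_add]
    ext
    · simp; ring
    · simp; ring

theorem rch_central {t : ℝ} (i : Fin 4) (z : ℝ) (n : ℕ) (hn : Real.sqrt |z| ≤ n) :
    Rch (4 * n) (⟨0, z • cc t i⟩ : NT t) := by
  obtain ⟨a, b, ha, hb, hab⟩ : ∃ a b : ℝ, |a| ≤ n ∧ |b| ≤ n ∧ a * b = z := by
    rcases le_total 0 z with h | h
    · refine ⟨Real.sqrt |z|, Real.sqrt |z|, ?_, ?_, ?_⟩
      · rwa [abs_of_nonneg (Real.sqrt_nonneg _)]
      · rwa [abs_of_nonneg (Real.sqrt_nonneg _)]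
      · rw [Real.mul_self_sqrt (abs_nonneg _), abs_of_nonneg h]
    · refine ⟨Real.sqrt |z|, -Real.sqrt |z|, ?_, ?_, ?_⟩
      · rwa [abs_of_nonneg (Real.sqrt_nonneg _)]
      · rwa [abs_neg, abs_of_nonneg (Real.sqrt_nonneg _)]
      · rw [mul_neg, Real.mul_self_sqrt (abs_nonneg _), abs_of_nonpos h, neg_neg]
  have h1 := (((rch_ge (t := t) n i true a ha).mul (rch_ge n i false b hb)).mul
    (rch_ge n i true (-a) (by rwa [abs_neg]))).mul (rch_ge n i false (-b) (by rwa [abs_neg]))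
  rw [comm_eq, hab] at h1
  have h2 : n + n + n + n = 4 * n := by ring
  rwa [h2] at h1

theorem t_GEN : S_GEN := by
  intro t
  have hb := bt_pos t
  refine ⟨9 + 8 * (3 + |t|), by positivity, fun g => ?_⟩
  set ρ := nn g with hρ
  have hρ0 : 0 ≤ ρ := nn_nonneg g
  have hz := norm_z_le g
  have hz1 : |g.z.1| ≤ ‖g.z‖ := norm_fst_le g.z
  have hz2 : |g.z.2| ≤ ‖g.z‖ := norm_snd_le g.z
  have hs : ∀ x : ℝ, |x| ≤ ‖g.z‖ → Real.sqrt |x| ≤ (3 + |t|) * ρ := by
    intro x hx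
    rw [Real.sqrt_le_left (by positivity)]
    have h1 : (3 + |t|) * ρ ^ 2 ≤ ((3 + |t|) * ρ) ^ 2 := by
      have h3 : (1 : ℝ) ≤ 3 + |t| := by linarith [abs_nonneg t]
      have h4 : (3 + |t|) * ρ ^ 2 ≤ (3 + |t|) * ((3 + |t|) * ρ ^ 2) :=
        mul_le_mul_of_nonneg_left (by nlinarith [sq_nonneg ρ]) hb.le
      calc (3 + |t|) * ρ ^ 2 ≤ (3 + |t|) * ((3 + |t|) * ρ ^ 2) := h4
        _ = ((3 + |t|) * ρ) ^ 2 := by ring
    linarith
  have r1 := rch_hor (t := t) ⌈ρ⌉₊ g.v ((norm_v_le g).trans (Nat.le_ceil _))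
  have r2 := rch_central (t := t) 0 g.z.1 ⌈(3 + |t|) * ρ⌉₊ ((hs _ hz1).trans (Nat.le_ceil _))
  have r3 := rch_central (t := t) 1 g.z.2 ⌈(3 + |t|) * ρ⌉₊ ((hs _ hz2).trans (Nat.le_ceil _))
  have r4 := (r1.mul r2).mul r3
  have hg : (⟨g.v, 0⟩ : NT t) * ⟨0, g.z.1 • cc t 0⟩ * ⟨0, g.z.2 • cc t 1⟩ = g := by
    refine ext' ?_ ?_
    · simp
    · simp only [mul_z, mul_v, om_zero_right, smul_zero, add_zero, zero_add]
      ext <;> simp [cc]
  rw [hg] at r4
  obtain ⟨p, p0, pn, hp⟩ := r4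
  refine ⟨_, p, ?_, p0, pn, hp⟩
  push_cast
  have h1 := (Nat.ceil_lt_add_one hρ0).le
  have h2 := (Nat.ceil_lt_add_one (by positivity : 0 ≤ (3 + |t|) * ρ)).le
  nlinarith [abs_nonneg t]

end Pool.Agent.Y314.CT
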