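import Pool.Agent.Y314.CT.Stm

set_option autoImplicit false

/-!
# CT-GRW and CT-TRA: growth, local finiteness, coarse transitivity
-/

namespace Pool.Agent.Y314.CT

theorem t_GRW : S_CNT → S_CMP → S_GRW := by
  intro hCNT hCMP t
  obtain ⟨c, hc⟩ := hCNT t
  obtain ⟨-, C, hC, hd⟩ := hCMP t
  refine ⟨fun v => ?_, (0 : Pt), c * 2 ^ 12, 12, fun r => ?_⟩
  · obtain ⟨hfin, -⟩ := hc (io t v) 2
    refine hfin.subset ?_
    intro q hq
    have hq' : (XG t).Adj v q := hq
    show dd (io t v) (io t q) ≤ ((2 : ℕ) : ℝ)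
    push_cast
    exact hq'.2
  · obtain ⟨hfin, hcard⟩ := hc (io t 0) (2 * r)
    have hsub : {w | (XG t).dist (0 : Pt) w ≤ r} ⊆
        {q : Pt | dd (io t 0) (io t q) ≤ ((2 * r : ℕ) : ℝ)} := by
      intro w hw
      have hw' : ((XG t).dist (0 : Pt) w : ℝ) ≤ r := by exact_mod_cast hw
      have h1 := (hd 0 w).1
      show dd (io t 0) (io t w) ≤ ((2 * r : ℕ) : ℝ)
      push_cast
      linarith
    calc Set.ncard {w | (XG t).dist (0 : Pt) w ≤ r}
        ≤ _ := Set.ncard_le_ncard hsub hfin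
      _ ≤ c * (2 * r + 1) ^ 12 := hcard
      _ ≤ c * (2 * (r + 1)) ^ 12 := by
          refine Nat.mul_le_mul_left _ (Nat.pow_le_pow_left (by omega) _)
      _ = c * 2 ^ 12 * (r + 1) ^ 12 := by rw [mul_pow]; ring

theorem t_TRA : S_RD → S_CMP → S_TRA := by
  intro hRD hCMP t
  obtain ⟨rd, hrd, hrd2⟩ := hRD t
  obtain ⟨-, C, hC, hd⟩ := hCMP t
  refine ⟨2 * C + 2, 2 * C + 2, by positivity, fun x y => ?_⟩
  have near : ∀ u v : NT t, |dd (io t (rd u)) (io t (rd v)) - dd u v| ≤ 1 := by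
    intro u v
    have e1 := hrd u
    have e2 := hrd v
    have e3 := dd_triangle (io t (rd u)) u (io t (rd v))
    have e4 := dd_triangle u v (io t (rd v))
    have e5 := dd_triangle u (io t (rd u)) v
    have e6 := dd_triangle (io t (rd u)) (io t (rd v)) v
    rw [dd_comm u (io t (rd u))] at e5
    rw [dd_comm v (io t (rd v))] at e4
    rw [abs_le]
    constructor <;> linarith
  refine ⟨fun z => rd (io t y * (io t x)⁻¹ * io t z), fun a b => ?_, fun z => ?_, ?_⟩
  · have h1 := near (io t y * (io t x)⁻¹ * io t a) (io t y * (io t x)⁻¹ * io t b)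
    rw [dd_mul_left, abs_le] at h1
    obtain ⟨h2, h3⟩ := h1
    set D := dd (io t a) (io t b) with hD
    obtain ⟨k1, k2⟩ := hd a b
    obtain ⟨k3, k4⟩ := hd (rd (io t y * (io t x)⁻¹ * io t a)) (rd (io t y * (io t x)⁻¹ * io t b))
    set D' := dd (io t (rd (io t y * (io t x)⁻¹ * io t a)))
      (io t (rd (io t y * (io t x)⁻¹ * io t b))) with hD'
    set n : ℝ := ((XG t).dist a b : ℝ) with hn
    set m : ℝ := ((XG t).dist (rd (io t y * (io t x)⁻¹ * io t a))
      (rd (io t y * (io t x)⁻¹ * io t b)) : ℝ) with hm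
    have hn0 : 0 ≤ n := by rw [hn]; positivity
    have hm0 : 0 ≤ m := by rw [hm]; positivity
    constructor
    · rw [sub_le_iff_le_add, div_le_iff₀ (by positivity)]
      have hCm : 0 ≤ C * m := by positivity
      have h5 : C * D ≤ C * (D' + 1) := mul_le_mul_of_nonneg_left (by linarith) hC.le
      have h6 : C * D' ≤ C * (2 * m) := mul_le_mul_of_nonneg_left k3 hC.le
      nlinarith [sq_nonneg C]
    · have h5 : C * D' ≤ C * (D + 1) := mul_le_mul_of_nonneg_left (by linarith) hC.le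
      have h6 : C * D ≤ C * (2 * n) := mul_le_mul_of_nonneg_left k1 hC.le
      nlinarith
  · refine ⟨rd (io t x * (io t y)⁻¹ * io t z), ?_⟩
    set a := rd (io t x * (io t y)⁻¹ * io t z) with ha
    have h1 := hrd (io t y * (io t x)⁻¹ * io t a)
    have h2 := hrd (io t x * (io t y)⁻¹ * io t z)
    rw [← ha] at h2
    have h3 : dd (io t y * (io t x)⁻¹ * io t a) (io t z) = dd (io t a) (io t x * (io t y)⁻¹ * io t z) := by
      have h4 : io t z = io t y * (io t x)⁻¹ * (io t x * (io t y)⁻¹ * io t z) := by group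
      conv_lhs => rw [h4]
      rw [dd_mul_left]
    have h5 := dd_triangle (io t (rd (io t y * (io t x)⁻¹ * io t a))) (io t y * (io t x)⁻¹ * io t a) (io t z)
    rw [h3] at h5
    have h6 := (hd (rd (io t y * (io t x)⁻¹ * io t a)) z).2
    have h7 : C * dd (io t (rd (io t y * (io t x)⁻¹ * io t a))) (io t z) ≤ C * 1 :=
      mul_le_mul_of_nonneg_left (by linarith) hC.le
    show ((XG t).dist (rd (io t y * (io t x)⁻¹ * io t a)) z : ℝ) ≤ _
    linarith
  · have h1 : rd (io t y * (io t x)⁻¹ * io t x) = y := by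
      rw [inv_mul_cancel_right, hrd2]
    show ((XG t).dist (rd (io t y * (io t x)⁻¹ * io t x)) y : ℝ) ≤ _
    rw [h1, SimpleGraph.dist_self]
    push_cast
    positivity

end Pool.Agent.Y314.CT
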