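import Pool.Agent.Y314.CT.Base

set_option autoImplicit false

/-!
# Statements of project CT (MP_616471_al)
-/

namespace Pool.Agent.Y314.CT

/-- GEN: every element is joined to `1` by a chain of unit steps of length `O(nn g + 1)`. -/
def S_GEN : Prop :=
  ∀ t : ℝ, ∃ C : ℝ, 0 < C ∧ ∀ g : NT t, ∃ (n : ℕ) (p : ℕ → NT t),
    (n : ℝ) ≤ C * (nn g + 1) ∧ p 0 = 1 ∧ p n = g ∧ ∀ i, i < n → dd (p i) (p (i + 1)) ≤ 1

/-- RD: rounding to points with integral coordinates. -/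
def S_RD : Prop :=
  ∀ t : ℝ, ∃ rd : NT t → Pt, (∀ g, dd (io t (rd g)) g ≤ 1 / 2) ∧ ∀ q, rd (io t q) = q

/-- CNT: number of integral points in balls. -/
def S_CNT : Prop :=
  ∀ t : ℝ, ∃ c : ℕ, ∀ (g : NT t) (r : ℕ), {q : Pt | dd g (io t q) ≤ (r : ℝ)}.Finite ∧
    {q : Pt | dd g (io t q) ≤ (r : ℝ)}.ncard ≤ c * (r + 1) ^ 12

/-- CMP: the graph metric is comparable with the metric `dd`. -/
def S_CMP : Prop :=
  ∀ t : ℝ, (XG t).Connected ∧ ∃ C : ℝ, 0 < C ∧ ∀ p q : Pt,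
    dd (io t p) (io t q) ≤ 2 * ((XG t).dist p q : ℝ) ∧
    ((XG t).dist p q : ℝ) ≤ C * dd (io t p) (io t q) + C

/-- GRW: local finiteness and polynomial growth. -/
def S_GRW : Prop :=
  ∀ t : ℝ, (∀ v, ((XG t).neighborSet v).Finite) ∧
    ∃ (v₀ : Pt) (c d : ℕ), ∀ r : ℕ, Set.ncard {w | (XG t).dist v₀ w ≤ r} ≤ c * (r + 1) ^ d

/-- ASD: finite asymptotic dimension. -/
def S_ASD : Prop :=
  ∀ t : ℝ, ∃ n : ℕ, ∀ R : ℕ, ∃ (ι : Type) (U : ι → Set Pt) (D : ℕ),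
    (∀ i, ∀ x ∈ U i, ∀ y ∈ U i, (XG t).dist x y ≤ D) ∧
    (∀ x, ∃ i, x ∈ U i) ∧
    ∀ x, {i | ∃ y ∈ U i, (XG t).dist x y ≤ R}.Finite ∧
      Set.ncard {i | ∃ y ∈ U i, (XG t).dist x y ≤ R} ≤ n + 1

/-- TRA: coarse transitivity. -/
def S_TRA : Prop :=
  ∀ t : ℝ, ∃ K C : ℝ, 0 < K ∧ ∀ x y : Pt, ∃ f : Pt → Pt,
    (∀ a b : Pt, ((XG t).dist a b : ℝ) / K - C ≤ ((XG t).dist (f a) (f b) : ℝ) ∧
        ((XG t).dist (f a) (f b) : ℝ) ≤ K * ((XG t).dist a b : ℝ) + C) ∧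
    (∀ z : Pt, ∃ a : Pt, ((XG t).dist (f a) z : ℝ) ≤ C) ∧
    ((XG t).dist (f x) y : ℝ) ≤ C

/-- HOL: holonomy of a coarse cocycle around a closed chain is trivial. -/
def S_HOL : Prop :=
  ∀ (t r : ℝ), 0 ≤ r → ∀ (L : Type) [Group L] (c : NT t → NT t → L),
    (∀ a b d, dd a b ≤ r + 1 → dd b d ≤ r + 1 → dd a d ≤ r + 1 → c a b * c b d = c a d) →
    ∀ (n : ℕ) (p : ℕ → NT t), (∀ i, i < n → dd (p i) (p (i + 1)) ≤ r) → p n = p 0 →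
      ((List.range n).map fun i => c (p i) (p (i + 1))).prod = 1

/-- FP: a group which is quasi-isometric to `N_t` is finitely presented. -/
def S_FP : Prop :=
  ∀ (t : ℝ) (H : Type) [Group H] (n : ℕ) (gens : Fin n → H) (A : NT t → H) (B : H → NT t) (K : ℝ),
    QD t H n gens A B K →
    ∃ rels : Finset (FreeGroup (Fin n)), ∀ w : FreeGroup (Fin n),
      FreeGroup.lift gens w = 1 ↔
        w ∈ Subgroup.normalClosure (rels : Set (FreeGroup (Fin n)))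

/-- CAY: from the Cayley graph and the graph `XG t` to the data `QD`. -/
def S_CAY : Prop :=
  ∀ (t : ℝ) (H : Type) [Group H] (S : Set H), S.Finite → Subgroup.closure S = ⊤ →
    (∃ (φ : Pt → H) (K C : ℝ), 0 < K ∧
      (∀ a b : Pt,
          ((XG t).dist a b : ℝ) / K - C ≤
            ((SimpleGraph.fromRel (fun g h : H => ∃ s ∈ S, h = g * s)).dist (φ a) (φ b) : ℝ) ∧
          ((SimpleGraph.fromRel (fun g h : H => ∃ s ∈ S, h = g * s)).dist (φ a) (φ b) : ℝ) ≤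
            K * ((XG t).dist a b : ℝ) + C) ∧
      (∀ h : H, ∃ a : Pt,
          ((SimpleGraph.fromRel (fun g h : H => ∃ s ∈ S, h = g * s)).dist (φ a) h : ℝ) ≤ C)) →
    ∃ (n : ℕ) (gens : Fin n → H) (A : NT t → H) (B : H → NT t) (K : ℝ), QD t H n gens A B K

/-- SAME: if all `N_t` with `t > 2` are quasi-isometric to groups, then two different ones are
quasi-isometric to each other (only the bounds are recorded). -/
def S_SAME : Prop :=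
  (∀ t : ℝ, 2 < t → ∃ (H : Type) (_ : Group H) (n : ℕ) (gens : Fin n → H) (A : NT t → H)
      (B : H → NT t) (K : ℝ), QD t H n gens A B K) →
  ∃ t s : ℝ, 2 < t ∧ 2 < s ∧ t ≠ s ∧ ∃ (φ : NT t → NT s) (K : ℝ), 0 < K ∧
    ∀ a b, dd a b ≤ K * dd (φ a) (φ b) + K ∧ dd (φ a) (φ b) ≤ K * dd a b + K

/-- SEL: at some large scale, around some point, the horizontal part of a coarse Lipschitz map is
almost affine along the generators at finitely many places. -/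
def S_SEL : Prop :=
  ∀ (t s : ℝ) (φ : NT t → NT s) (K : ℝ), 0 < K → (∀ a b, dd (φ a) (φ b) ≤ K * dd a b + K) →
    ∀ (F : Finset (NT t)) (ε : ℝ), 0 < ε → ∀ N : ℕ, ∃ k : ℕ, N ≤ k ∧ ∃ x : NT t,
      ∀ h ∈ F, ∀ (i : Fin 4) (b : Bool),
        ‖(φ (x * dil (2 ^ k) (h * ge t i b 2))).v + (φ (x * dil (2 ^ k) h)).v
            - (2 : ℝ) • (φ (x * dil (2 ^ k) (h * ge t i b 1))).v‖ ≤ ε * 2 ^ k

/-- Bi-Lipschitz maps. -/
structure TL (t s : ℝ) (Φ : NT t → NT s) (K : ℝ) : Prop where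
  pos : 0 < K
  one : Φ 1 = 1
  lo : ∀ a b, dd a b ≤ K * dd (Φ a) (Φ b)
  up : ∀ a b, dd (Φ a) (Φ b) ≤ K * dd a b

/-- LIM: the limit map. -/
def S_LIM : Prop :=
  ∀ (t s : ℝ) (φ : NT t → NT s) (K : ℝ), 0 < K →
    (∀ a b, dd a b ≤ K * dd (φ a) (φ b) + K ∧ dd (φ a) (φ b) ≤ K * dd a b + K) →
    ∃ Φ : NT t → NT s, TL t s Φ K ∧
      ∀ (h : NT t) (i : Fin 4) (b : Bool),
        (Φ (h * ge t i b 2)).v + (Φ h).v = (2 : ℝ) • (Φ (h * ge t i b 1)).v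

/-- AFF: the horizontal part is a homomorphism along the generators. -/
def S_AFF : Prop :=
  ∀ (t s : ℝ) (Φ : NT t → NT s) (K : ℝ), TL t s Φ K →
    (∀ (h : NT t) (i : Fin 4) (b : Bool),
        (Φ (h * ge t i b 2)).v + (Φ h).v = (2 : ℝ) • (Φ (h * ge t i b 1)).v) →
    ∃ σ : Fin 4 → Bool → HV, ∀ (h : NT t) (i : Fin 4) (b : Bool) (r : ℤ),
      (Φ (h * ge t i b (r : ℝ))).v = (Φ h).v + (r : ℝ) • σ i b

/-- The conclusion of COM. -/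
def ComEst (t s : ℝ) (Φ : NT t → NT s) (σ : Fin 4 → Bool → HV) (Z : ℝ) : Prop :=
  ∀ (h : NT t) (i : Fin 4) (b : Bool) (j : Fin 4) (b' : Bool) (p q : ℤ), ∃ ζ : ZV,
    Φ (h * ⟨0, ((p : ℝ) * (q : ℝ)) • om t (ev i b) (ev j b')⟩) = Φ h * ⟨0, ζ⟩ ∧
    ‖ζ - ((p : ℝ) * (q : ℝ)) • om s (σ i b) (σ j b')‖ ≤ Z * (|(p : ℝ)| + |(q : ℝ)|)

/-- COM: images of commutators. -/
def S_COM : Prop :=
  ∀ (t s : ℝ) (Φ : NT t → NT s) (K : ℝ), TL t s Φ K → ∀ σ : Fin 4 → Bool → HV,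
    (∀ (h : NT t) (i : Fin 4) (b : Bool) (r : ℤ),
      (Φ (h * ge t i b (r : ℝ))).v = (Φ h).v + (r : ℝ) • σ i b) →
    ∃ Z : ℝ, 0 ≤ Z ∧ ComEst t s Φ σ Z

/-- REL: the linear map of the centres. -/
def S_REL : Prop :=
  ∀ (t s : ℝ) (Φ : NT t → NT s) (K : ℝ), TL t s Φ K → ∀ (σ : Fin 4 → Bool → HV) (Z : ℝ), 0 ≤ Z →
    ComEst t s Φ σ Z →
    ∃ M : ZV →ₗ[ℝ] ZV, Function.Injective M ∧ ∀ (i : Fin 4) (b : Bool) (j : Fin 4) (b' : Bool),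
      om s (σ i b) (σ j b') = M (om t (ev i b) (ev j b'))

/-- CR: the cross-ratio argument. -/
def S_CR : Prop :=
  ∀ t s : ℝ, 2 < t → 2 < s → ∀ (σ : Fin 4 → Bool → HV) (M : ZV →ₗ[ℝ] ZV), Function.Injective M →
    (∀ (i : Fin 4) (b : Bool) (j : Fin 4) (b' : Bool),
      om s (σ i b) (σ j b') = M (om t (ev i b) (ev j b'))) → t = s

/-- RIG: rigidity. -/
def S_RIG : Prop :=
  ∀ t s : ℝ, 2 < t → 2 < s → ∀ (φ : NT t → NT s) (K : ℝ), 0 < K →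
    (∀ a b, dd a b ≤ K * dd (φ a) (φ b) + K ∧ dd (φ a) (φ b) ≤ K * dd a b + K) → t = s

theorem rig_of (hL : S_LIM) (hA : S_AFF) (hC : S_COM) (hR : S_REL) (hX : S_CR) : S_RIG := by
  intro t s ht hs φ K hK hφ
  obtain ⟨Φ, hT, h2⟩ := hL t s φ K hK hφ
  obtain ⟨σ, hσ⟩ := hA t s Φ K hT h2
  obtain ⟨Z, hZ, hE⟩ := hC t s Φ K hT σ hσ
  obtain ⟨M, hM, hM2⟩ := hR t s Φ K hT σ Z hZ hE
  exact hX t s ht hs σ M hM hM2

end Pool.Agent.Y314.CT
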