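import Pool.Agent.Y314.CT.Asm
import Pool.Agent.Y314.CT.Gen
import Pool.Agent.Y314.CT.Cmp
import Pool.Agent.Y314.CT.Grw
import Pool.Agent.Y314.CT.Asd
import Pool.Agent.Y815.CT.RdCnt
import Pool.Agent.Y517.CT.Hol
import Pool.Agent.Y153.CT.FP
import Pool.Agent.Y448.CT.Same
import Pool.Agent.Y98.CT.Sel
import Pool.Agent.Y328.CT.Lim
import Pool.Agent.Y899.CT.AffCom
import Pool.Agent.Y785.CT.Rel
import Pool.Agent.Y367.CT.CR

set_option autoImplicit false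

/-!
# Project CT: everything except CAY
-/

namespace Pool.Agent.Y314.CT

theorem f_RD : S_RD := Pool.Agent.Y815.CT.t_RD
theorem f_CNT : S_CNT := Pool.Agent.Y815.CT.t_CNT
theorem f_CMP : S_CMP := t_CMP t_GEN f_RD
theorem f_GRW : S_GRW := t_GRW f_CNT f_CMP
theorem f_TRA : S_TRA := t_TRA f_RD f_CMP
theorem f_ASD : S_ASD := t_ASD f_RD f_CNT f_CMP
theorem f_FP : S_FP := Pool.Agent.Y153.CT.t_FP Pool.Agent.Y517.CT.t_HOL
theorem f_SAME : S_SAME := Pool.Agent.Y448.CT.t_SAME f_FP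
theorem f_LIM : S_LIM := Pool.Agent.Y328.CT.t_LIM Pool.Agent.Y98.CT.t_SEL
theorem f_RIG : S_RIG :=
  rig_of f_LIM Pool.Agent.Y899.CT.t_AFF Pool.Agent.Y899.CT.t_COM Pool.Agent.Y785.CT.t_REL
    Pool.Agent.Y367.CT.t_CR

theorem final_of (hY : S_CAY) :
    ∃ (V : Type) (G : SimpleGraph V),
      G.Connected ∧ (∀ v, (G.neighborSet v).Finite) ∧
      (∃ (v₀ : V) (c d : ℕ), ∀ r : ℕ,
          Set.ncard {w | G.dist v₀ w ≤ r} ≤ c * (r + 1) ^ d) ∧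
      (∃ n : ℕ, ∀ R : ℕ, ∃ (ι : Type) (U : ι → Set V) (D : ℕ),
          (∀ i, ∀ x ∈ U i, ∀ y ∈ U i, G.dist x y ≤ D) ∧
          (∀ x, ∃ i, x ∈ U i) ∧
          ∀ x, {i | ∃ y ∈ U i, G.dist x y ≤ R}.Finite ∧
            Set.ncard {i | ∃ y ∈ U i, G.dist x y ≤ R} ≤ n + 1) ∧
      (∃ K C : ℝ, 0 < K ∧ ∀ x y : V, ∃ f : V → V,
          (∀ a b : V, (G.dist a b : ℝ) / K - C ≤ (G.dist (f a) (f b) : ℝ) ∧
              (G.dist (f a) (f b) : ℝ) ≤ K * (G.dist a b : ℝ) + C) ∧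
          (∀ z : V, ∃ a : V, (G.dist (f a) z : ℝ) ≤ C) ∧
          (G.dist (f x) y : ℝ) ≤ C) ∧
      ∀ (H : Type) [Group H] (S : Set H), S.Finite → Subgroup.closure S = ⊤ →
        ¬ ∃ (φ : V → H) (K C : ℝ), 0 < K ∧
          (∀ a b : V,
              (G.dist a b : ℝ) / K - C ≤
                ((SimpleGraph.fromRel (fun g h : H => ∃ s ∈ S, h = g * s)).dist (φ a) (φ b) : ℝ) ∧
              ((SimpleGraph.fromRel (fun g h : H => ∃ s ∈ S, h = g * s)).dist (φ a) (φ b) : ℝ) ≤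
                K * (G.dist a b : ℝ) + C) ∧
          (∀ h : H, ∃ a : V,
              ((SimpleGraph.fromRel (fun g h : H => ∃ s ∈ S, h = g * s)).dist (φ a) h : ℝ) ≤ C) :=
  main_of f_CMP f_GRW f_ASD f_TRA hY f_SAME f_RIG

end Pool.Agent.Y314.CT
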