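import Pool.Agent.Y314.CT.Stm

set_option autoImplicit false

/-!
# Assembly of project CT (MP_616471_al)
-/

namespace Pool.Agent.Y314.CT

theorem main_of (hC : S_CMP) (hG : S_GRW) (hA : S_ASD) (hT : S_TRA) (hY : S_CAY) (hS : S_SAME)
    (hR : S_RIG) :
    ∃ (V : Type) (G : SimpleGraph V),
      G.Connected ∧ (∀ v, (G.neighborSet v).Finite) ∧
      (∃ (v₀ : V) (c d : ℕ), ∀ r : ℕ,
          Set.ncard {w | G.dist v₀ w ≤ r} ≤ c * (r + 1) ^ d) ∧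
      (∃ n : ℕ, ∀ R : ℕ, ∃ (ι : Type) (U : ι → Set V) (D : ℕ),
          (∀ i, ∀ x ∈ U i, ∀ y ∈ U i, G.dist x y ≤ D) ∧
          (∀ x, ∃ i, x ∈ U i) ∧
          ∀ x, {i | ∃ y ∈ U i, G.dist x y ≤ R}.Finite ∧
            Set.ncard {i | ∃ y ∈ U i, G.dist x y ≤ R} ≤ n + 1) ∧
      (∃ K C : ℝ, 0 < K ∧ ∀ x y : V, ∃ f : V → V,
          (∀ a b : V, (G.dist a b : ℝ) / K - C ≤ (G.dist (f a) (f b) : ℝ) ∧
              (G.dist (f a) (f b) : ℝ) ≤ K * (G.dist a b : ℝ) + C) ∧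
          (∀ z : V, ∃ a : V, (G.dist (f a) z : ℝ) ≤ C) ∧
          (G.dist (f x) y : ℝ) ≤ C) ∧
      ∀ (H : Type) [Group H] (S : Set H), S.Finite → Subgroup.closure S = ⊤ →
        ¬ ∃ (φ : V → H) (K C : ℝ), 0 < K ∧
          (∀ a b : V,
              (G.dist a b : ℝ) / K - C ≤
                ((SimpleGraph.fromRel (fun g h : H => ∃ s ∈ S, h = g * s)).dist (φ a) (φ b) : ℝ) ∧
              ((SimpleGraph.fromRel (fun g h : H => ∃ s ∈ S, h = g * s)).dist (φ a) (φ b) : ℝ) ≤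
                K * (G.dist a b : ℝ) + C) ∧
          (∀ h : H, ∃ a : V,
              ((SimpleGraph.fromRel (fun g h : H => ∃ s ∈ S, h = g * s)).dist (φ a) h : ℝ) ≤ C) := by
  by_contra hcon
  have key : ∀ t : ℝ, 2 < t → ∃ (H : Type) (_ : Group H) (n : ℕ) (gens : Fin n → H)
      (A : NT t → H) (B : H → NT t) (K : ℝ), QD t H n gens A B K := by
    intro t _
    by_contra hno
    apply hcon
    refine ⟨Pt, XG t, (hC t).1, (hG t).1, (hG t).2, hA t, hT t, ?_⟩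
    intro H _ S hS1 hS2 hφ
    apply hno
    obtain ⟨n, gens, A, B, K, hQ⟩ := hY t H S hS1 hS2 hφ
    exact ⟨H, inferInstance, n, gens, A, B, K, hQ⟩
  obtain ⟨t, s, ht, hs, hts, φ, K, hK, hφ⟩ := hS key
  exact hts (hR t s ht hs φ K hK hφ)

end Pool.Agent.Y314.CT
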