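import Mathlib

set_option autoImplicit false

/-!
# The Carnot groups `N_t` of dimension ten

Base file of project CT (MP_616471_al): two-step nilpotent Lie groups `N_t` with eight dimensional
horizontal layer and two dimensional centre, their homogeneous norm, their left invariant metric,
their dilations, and their integer points.
-/

namespace Pool.Agent.Y314.CT

open scoped BigOperators

/-- Horizontal vectors. -/
abbrev HV : Type := Fin 4 → ℝ × ℝ

/-- Central vectors. -/
abbrev ZV : Type := ℝ × ℝ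

/-- The `i`-th symplectic term. -/
def sy (u w : HV) (i : Fin 4) : ℝ := (u i).1 * (w i).2 - (w i).1 * (u i).2

/-- The vector valued alternating form `ω_t`. -/
def om (t : ℝ) (u w : HV) : ZV :=
  (sy u w 0 + sy u w 2 + sy u w 3, sy u w 1 + sy u w 2 + t * sy u w 3)

/-- The group `N_t`. -/
@[ext] structure NT (t : ℝ) : Type where
  v : HV
  z : ZV

variable {t : ℝ}

theorem sy_add_left (u u' w : HV) (i : Fin 4) : sy (u + u') w i = sy u w i + sy u' w i := by
  simp only [sy, Pi.add_apply, Prod.fst_add, Prod.snd_add]; ring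

theorem sy_add_right (u w w' : HV) (i : Fin 4) : sy u (w + w') i = sy u w i + sy u w' i := by
  simp only [sy, Pi.add_apply, Prod.fst_add, Prod.snd_add]; ring

theorem sy_smul_left (c : ℝ) (u w : HV) (i : Fin 4) : sy (c • u) w i = c * sy u w i := by
  simp only [sy, Pi.smul_apply, Prod.smul_fst, Prod.smul_snd, smul_eq_mul]; ring

theorem sy_smul_right (c : ℝ) (u w : HV) (i : Fin 4) : sy u (c • w) i = c * sy u w i := by
  simp only [sy, Pi.smul_apply, Prod.smul_fst, Prod.smul_snd, smul_eq_mul]; ring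

theorem sy_self (u : HV) (i : Fin 4) : sy u u i = 0 := by
  simp only [sy]; ring

theorem sy_swap (u w : HV) (i : Fin 4) : sy w u i = - sy u w i := by
  simp only [sy]; ring

theorem om_add_left (u u' w : HV) : om t (u + u') w = om t u w + om t u' w := by
  ext <;> simp only [om, sy_add_left, Prod.fst_add, Prod.snd_add] <;> ring

theorem om_add_right (u w w' : HV) : om t u (w + w') = om t u w + om t u w' := by
  ext <;> simp only [om, sy_add_right, Prod.fst_add, Prod.snd_add] <;> ring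

theorem om_smul_left (c : ℝ) (u w : HV) : om t (c • u) w = c • om t u w := by
  ext <;> simp only [om, sy_smul_left, Prod.smul_fst, Prod.smul_snd, smul_eq_mul] <;> ring

theorem om_smul_right (c : ℝ) (u w : HV) : om t u (c • w) = c • om t u w := by
  ext <;> simp only [om, sy_smul_right, Prod.smul_fst, Prod.smul_snd, smul_eq_mul] <;> ring

theorem om_self (u : HV) : om t u u = 0 := by
  ext <;> simp only [om, sy_self, Prod.fst_zero, Prod.snd_zero] <;> ring

theorem om_swap (u w : HV) : om t w u = - om t u w := by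
  ext <;> simp only [om, sy_swap u w, Prod.fst_neg, Prod.snd_neg] <;> ring

theorem om_neg_left (u w : HV) : om t (-u) w = - om t u w := by
  have := om_smul_left (t := t) (-1) u w; simpa using this

theorem om_neg_right (u w : HV) : om t u (-w) = - om t u w := by
  have := om_smul_right (t := t) (-1) u w; simpa using this

theorem om_zero_left (w : HV) : om t 0 w = 0 := by
  have := om_smul_left (t := t) 0 0 w; simpa using this

theorem om_zero_right (u : HV) : om t u 0 = 0 := by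
  have := om_smul_right (t := t) 0 u 0; simpa using this

/-- The four vectors `c_i`. -/
def cc (t : ℝ) : Fin 4 → ZV := ![(1, 0), (0, 1), (1, 1), (1, t)]

theorem om_eq_sum (u w : HV) : om t u w = ∑ i, sy u w i • cc t i := by
  ext <;> simp [om, cc, Fin.sum_univ_four, Prod.fst_sum, Prod.snd_sum] <;> ring

noncomputable instance : Mul (NT t) := ⟨fun g h => ⟨g.v + h.v, g.z + h.z + (1 / 2 : ℝ) • om t g.v h.v⟩⟩
instance : One (NT t) := ⟨⟨0, 0⟩⟩
instance : Inv (NT t) := ⟨fun g => ⟨-g.v, -g.z⟩⟩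

@[simp] theorem mul_v (g h : NT t) : (g * h).v = g.v + h.v := rfl
@[simp] theorem mul_z (g h : NT t) : (g * h).z = g.z + h.z + (1 / 2 : ℝ) • om t g.v h.v := rfl
@[simp] theorem one_v : (1 : NT t).v = 0 := rfl
@[simp] theorem one_z : (1 : NT t).z = 0 := rfl
@[simp] theorem inv_v (g : NT t) : (g⁻¹).v = -g.v := rfl
@[simp] theorem inv_z (g : NT t) : (g⁻¹).z = -g.z := rfl

theorem ext' {g h : NT t} (hv : g.v = h.v) (hz : g.z = h.z) : g = h := by
  cases g; cases h; cases hv; cases hz; rfl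

noncomputable instance : Group (NT t) :=
  Group.ofLeftAxioms
    (by
      intro a b c
      refine ext' ?_ ?_
      · simp [add_assoc]
      · simp only [mul_z, mul_v, om_add_left, om_add_right, smul_add]
        abel)
    (by
      intro a
      refine ext' ?_ ?_
      · simp
      · simp [om_zero_left])
    (by
      intro a
      refine ext' ?_ ?_
      · simp
      · simp [om_neg_left, om_self])

/-- The homogeneous norm. -/
noncomputable def nn (g : NT t) : ℝ := max ‖g.v‖ (Real.sqrt (‖g.z‖ / (3 + |t|)))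

theorem bt_pos (t : ℝ) : 0 < 3 + |t| := by positivity

theorem nn_nonneg (g : NT t) : 0 ≤ nn g := le_max_of_le_left (norm_nonneg _)

theorem norm_v_le (g : NT t) : ‖g.v‖ ≤ nn g := le_max_left _ _

theorem norm_z_le (g : NT t) : ‖g.z‖ ≤ (3 + |t|) * nn g ^ 2 := by
  have h1 : Real.sqrt (‖g.z‖ / (3 + |t|)) ≤ nn g := le_max_right _ _
  have h2 : ‖g.z‖ / (3 + |t|) ≤ nn g ^ 2 := by
    have h3 : Real.sqrt (‖g.z‖ / (3 + |t|)) ^ 2 ≤ nn g ^ 2 :=
      pow_le_pow_left₀ (Real.sqrt_nonneg _) h1 2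
    rwa [Real.sq_sqrt (by positivity)] at h3
  rw [div_le_iff₀ (bt_pos t)] at h2
  linarith

theorem nn_le {g : NT t} {r : ℝ} (hr : 0 ≤ r) (hv : ‖g.v‖ ≤ r) (hz : ‖g.z‖ ≤ (3 + |t|) * r ^ 2) :
    nn g ≤ r := by
  refine max_le hv ?_
  rw [Real.sqrt_le_left hr, div_le_iff₀ (bt_pos t)]
  linarith

theorem abs_sy_le (u w : HV) (i : Fin 4) : |sy u w i| ≤ 2 * (‖u‖ * ‖w‖) := by
  have hu1 : |(u i).1| ≤ ‖u‖ := (norm_fst_le (u i)).trans (norm_le_pi_norm u i)
  have hu2 : |(u i).2| ≤ ‖u‖ := (norm_snd_le (u i)).trans (norm_le_pi_norm u i)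
  have hw1 : |(w i).1| ≤ ‖w‖ := (norm_fst_le (w i)).trans (norm_le_pi_norm w i)
  have hw2 : |(w i).2| ≤ ‖w‖ := (norm_snd_le (w i)).trans (norm_le_pi_norm w i)
  have h1 : |(u i).1 * (w i).2| ≤ ‖u‖ * ‖w‖ := by
    rw [abs_mul]; exact mul_le_mul hu1 hw2 (abs_nonneg _) (norm_nonneg _)
  have h2 : |(w i).1 * (u i).2| ≤ ‖u‖ * ‖w‖ := by
    rw [abs_mul, mul_comm]; exact mul_le_mul hu2 hw1 (abs_nonneg _) (norm_nonneg _)
  calc |sy u w i| ≤ |(u i).1 * (w i).2| + |(w i).1 * (u i).2| := by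
        unfold sy; exact abs_sub _ _
    _ ≤ _ := by linarith

theorem norm_om_le (u w : HV) : ‖om t u w‖ ≤ 2 * (3 + |t|) * (‖u‖ * ‖w‖) := by
  have h := abs_sy_le u w
  have hP : 0 ≤ ‖u‖ * ‖w‖ := by positivity
  have ht : 0 ≤ |t| := abs_nonneg t
  refine max_le ?_ ?_
  · show |sy u w 0 + sy u w 2 + sy u w 3| ≤ _
    have h1 : |sy u w 0 + sy u w 2 + sy u w 3| ≤ |sy u w 0| + |sy u w 2| + |sy u w 3| :=
      (abs_add_le _ _).trans (add_le_add (abs_add_le _ _) le_rfl)
    have h2 : 0 ≤ |t| * (‖u‖ * ‖w‖) := by positivity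
    nlinarith [h 0, h 2, h 3]
  · show |sy u w 1 + sy u w 2 + t * sy u w 3| ≤ _
    have h1 : |sy u w 1 + sy u w 2 + t * sy u w 3| ≤ |sy u w 1| + |sy u w 2| + |t * sy u w 3| :=
      (abs_add_le _ _).trans (add_le_add (abs_add_le _ _) le_rfl)
    rw [abs_mul] at h1
    have h2 : |t| * |sy u w 3| ≤ |t| * (2 * (‖u‖ * ‖w‖)) := mul_le_mul_of_nonneg_left (h 3) ht
    nlinarith [h 1, h 2]

theorem nn_mul_le (g h : NT t) : nn (g * h) ≤ nn g + nn h := by
  have hg := nn_nonneg g
  have hh := nn_nonneg h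
  refine nn_le (by positivity) ?_ ?_
  · exact (norm_add_le _ _).trans (add_le_add (norm_v_le g) (norm_v_le h))
  · have h1 : ‖(g * h).z‖ ≤ ‖g.z‖ + ‖h.z‖ + (1 / 2) * ‖om t g.v h.v‖ := by
      rw [mul_z]
      refine (norm_add_le _ _).trans (add_le_add (norm_add_le _ _) ?_)
      rw [norm_smul]
      simp
    have h2 := norm_om_le (t := t) g.v h.v
    have h3 : ‖g.v‖ * ‖h.v‖ ≤ nn g * nn h :=
      mul_le_mul (norm_v_le g) (norm_v_le h) (norm_nonneg _) hg
    have h4 := norm_z_le g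
    have h5 := norm_z_le h
    have hb := bt_pos t
    have h6 : (3 + |t|) * (‖g.v‖ * ‖h.v‖) ≤ (3 + |t|) * (nn g * nn h) :=
      mul_le_mul_of_nonneg_left h3 hb.le
    have h7 : 0 ≤ (3 + |t|) * (nn g * nn h) := by positivity
    nlinarith

@[simp] theorem nn_inv (g : NT t) : nn g⁻¹ = nn g := by
  simp [nn]

@[simp] theorem nn_one : nn (1 : NT t) = 0 := by
  simp [nn]

theorem eq_one_of_nn {g : NT t} (h : nn g = 0) : g = 1 := by
  have h1 := norm_v_le g
  have h2 := norm_z_le g
  rw [h] at h1 h2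
  refine ext' ?_ ?_
  · exact norm_le_zero_iff.1 h1
  · exact norm_le_zero_iff.1 (by simpa using h2)

/-- The left invariant metric. -/
noncomputable def dd (g h : NT t) : ℝ := nn (g⁻¹ * h)

theorem dd_nonneg (g h : NT t) : 0 ≤ dd g h := nn_nonneg _

@[simp] theorem dd_self (g : NT t) : dd g g = 0 := by simp [dd]

theorem dd_comm (g h : NT t) : dd g h = dd h g := by
  unfold dd
  rw [← nn_inv]
  simp

theorem dd_triangle (g h k : NT t) : dd g k ≤ dd g h + dd h k := by
  unfold dd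
  have : g⁻¹ * k = (g⁻¹ * h) * (h⁻¹ * k) := by group
  rw [this]
  exact nn_mul_le _ _

@[simp] theorem dd_mul_left (a g h : NT t) : dd (a * g) (a * h) = dd g h := by
  unfold dd
  congr 1
  group

theorem eq_of_dd {g h : NT t} (h0 : dd g h = 0) : g = h := by
  have := eq_one_of_nn h0
  exact (inv_mul_eq_one.1 this)

theorem inv_mul_v (g h : NT t) : (g⁻¹ * h).v = h.v - g.v := by
  simp [sub_eq_neg_add]

theorem inv_mul_z (g h : NT t) : (g⁻¹ * h).z = h.z - g.z - (1 / 2 : ℝ) • om t g.v h.v := by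
  simp only [mul_z, inv_z, inv_v, om_neg_left, smul_neg]
  abel

theorem norm_sub_v_le (g h : NT t) : ‖g.v - h.v‖ ≤ dd g h := by
  have := norm_v_le (g⁻¹ * h)
  rw [inv_mul_v] at this
  rwa [norm_sub_rev] at this

/-- Dilations. -/
def dil (r : ℝ) (g : NT t) : NT t := ⟨r • g.v, r ^ 2 • g.z⟩

@[simp] theorem dil_v (r : ℝ) (g : NT t) : (dil r g).v = r • g.v := rfl
@[simp] theorem dil_z (r : ℝ) (g : NT t) : (dil r g).z = r ^ 2 • g.z := rfl

theorem dil_mul (r : ℝ) (g h : NT t) : dil r (g * h) = dil r g * dil r h := by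
  refine ext' ?_ ?_
  · simp
  · simp only [dil_z, mul_z, dil_v, om_smul_left, om_smul_right, smul_add, smul_smul]
    congr 2
    ring

@[simp] theorem dil_inv (r : ℝ) (g : NT t) : dil r g⁻¹ = (dil r g)⁻¹ := by
  refine ext' ?_ ?_ <;> simp

@[simp] theorem dil_one' (r : ℝ) : dil r (1 : NT t) = 1 := by
  refine ext' ?_ ?_ <;> simp

theorem dil_dil (r s : ℝ) (g : NT t) : dil r (dil s g) = dil (r * s) g := by
  refine ext' ?_ ?_
  · simp [smul_smul]
  · simp [smul_smul, mul_pow]

@[simp] theorem one_dil (g : NT t) : dil 1 g = g := by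
  refine ext' ?_ ?_ <;> simp

@[simp] theorem zero_dil (g : NT t) : dil 0 g = 1 := by
  refine ext' ?_ ?_ <;> simp

theorem nn_dil {r : ℝ} (hr : 0 ≤ r) (g : NT t) : nn (dil r g) = r * nn g := by
  unfold nn
  rw [dil_v, dil_z, norm_smul, norm_smul, Real.norm_of_nonneg hr,
    Real.norm_of_nonneg (by positivity), mul_div_assoc, Real.sqrt_mul (by positivity),
    Real.sqrt_sq hr, mul_max_of_nonneg _ _ hr]

theorem dd_dil {r : ℝ} (hr : 0 ≤ r) (g h : NT t) : dd (dil r g) (dil r h) = r * dd g h := by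
  unfold dd
  rw [← dil_inv, ← dil_mul, nn_dil hr]

/-- Basis vectors of the horizontal layer: `ev i true` is the `i`-th `x`-vector and `ev i false` is
the `i`-th `y`-vector. -/
def ev (i : Fin 4) (b : Bool) : HV := Pi.single i (if b then (1, 0) else (0, 1))

/-- The eight generators, and their real powers. -/
def ge (t : ℝ) (i : Fin 4) (b : Bool) (r : ℝ) : NT t := ⟨r • ev i b, 0⟩

@[simp] theorem ge_v (i : Fin 4) (b : Bool) (r : ℝ) : (ge t i b r).v = r • ev i b := rfl
@[simp] theorem ge_z (i : Fin 4) (b : Bool) (r : ℝ) : (ge t i b r).z = 0 := rfl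

theorem ge_mul (i : Fin 4) (b : Bool) (r r' : ℝ) : ge t i b r * ge t i b r' = ge t i b (r + r') := by
  refine ext' ?_ ?_
  · simp [add_smul]
  · simp [om_smul_left, om_smul_right, om_self]

theorem ge_inv (i : Fin 4) (b : Bool) (r : ℝ) : (ge t i b r)⁻¹ = ge t i b (-r) := by
  refine ext' ?_ ?_ <;> simp

@[simp] theorem ge_zero (i : Fin 4) (b : Bool) : ge t i b 0 = 1 := by
  refine ext' ?_ ?_ <;> simp

theorem dil_ge (r : ℝ) (i : Fin 4) (b : Bool) (x : ℝ) : dil r (ge t i b x) = ge t i b (r * x) := by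
  refine ext' ?_ ?_ <;> simp [smul_smul]

theorem norm_ev (i : Fin 4) (b : Bool) : ‖ev i b‖ = 1 := by
  unfold ev
  rw [Pi.norm_single]
  cases b <;> simp [Prod.norm_def]

theorem nn_ge (i : Fin 4) (b : Bool) (r : ℝ) : nn (ge t i b r) = |r| := by
  simp [nn, norm_smul, norm_ev]

theorem om_ev_same (i : Fin 4) : om t (ev i true) (ev i false) = cc t i := by
  fin_cases i <;> ext <;> simp [om, sy, ev, cc, Pi.single_apply]

theorem om_ev_ne {i j : Fin 4} (h : i ≠ j) (b b' : Bool) : om t (ev i b) (ev j b') = 0 := by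
  revert h
  fin_cases i <;> fin_cases j <;> cases b <;> cases b' <;> intro h <;>
    first
    | exact absurd rfl h
    | (ext <;> simp [om, sy, ev, Pi.single_apply])

theorem om_ev_bool (i : Fin 4) (b : Bool) : om t (ev i b) (ev i b) = 0 := om_self _

/-- Points with integral coordinates. -/
abbrev Pt : Type := (Fin 4 → ℤ × ℤ) × (ℤ × ℤ)

/-- The inclusion of the points with integral coordinates. -/
def io (t : ℝ) (q : Pt) : NT t :=
  ⟨fun i => (((q.1 i).1 : ℝ), ((q.1 i).2 : ℝ)), ((q.2.1 : ℝ), (q.2.2 : ℝ))⟩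

/-- The graph on the points with integral coordinates. -/
def XG (t : ℝ) : SimpleGraph Pt where
  Adj p q := p ≠ q ∧ dd (io t p) (io t q) ≤ 2
  symm := ⟨fun p q h => ⟨h.1.symm, by rw [dd_comm]; exact h.2⟩⟩
  loopless := ⟨fun p h => h.1 rfl⟩

/-- The word norm with respect to a finite family of generators. -/
noncomputable def wn {H : Type} [Group H] {n : ℕ} (gens : Fin n → H) (h : H) : ℕ :=
  sInf {k : ℕ | ∃ w : FreeGroup (Fin n), FreeGroup.lift gens w = h ∧ w.norm ≤ k}

/-- A quasi-isometry `A : N_t → H` with a coarse inverse `B`. -/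
structure QD (t : ℝ) (H : Type) [Group H] (n : ℕ) (gens : Fin n → H) (A : NT t → H)
    (B : H → NT t) (K : ℝ) : Prop where
  pos : 0 < K
  surj : Function.Surjective (FreeGroup.lift gens)
  a_up : ∀ a b, (wn gens ((A a)⁻¹ * A b) : ℝ) ≤ K * dd a b + K
  a_lo : ∀ a b, dd a b ≤ K * (wn gens ((A a)⁻¹ * A b) : ℝ) + K
  b_up : ∀ g h, dd (B g) (B h) ≤ K * (wn gens (g⁻¹ * h) : ℝ) + K
  ab : ∀ h, (wn gens (h⁻¹ * A (B h)) : ℝ) ≤ K

end Pool.Agent.Y314.CT
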